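import Mathlib
import Pool.Agent.H442R2.EHI.PntErr
import Pool.Agent.H295R3.W.Stmts

/-! Task M of project H295-W2 (helper766): the summatory function of `μ * μ`. -/

set_option autoImplicit false

open Finset ArithmeticFunction

namespace Pool.Agent.H295R3.W

namespace TaskMAux

/-- the real Möbius function -/
noncomputable abbrev mu : ArithmeticFunction ℝ :=
  ((moebius : ArithmeticFunction ℤ) : ArithmeticFunction ℝ)

noncomputable def M (m : ℕ) : ℝ := ∑ n ∈ Ioc 0 m, mu n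

theorem abs_mu_le (n : ℕ) : |mu n| ≤ 1 := by
  simp only [mu, intCoe_apply]
  rw [← Int.cast_abs]
  exact_mod_cast abs_moebius_le_one

theorem abs_M_le (m : ℕ) : |M m| ≤ m := by
  unfold M
  calc |∑ n ∈ Ioc 0 m, mu n| ≤ ∑ n ∈ Ioc 0 m, |mu n| := abs_sum_le_sum_abs _ _
    _ ≤ ∑ n ∈ Ioc 0 m, (1 : ℝ) := sum_le_sum fun n _ => abs_mu_le n
    _ = m := by simp

theorem M_bound (V : ℕ) : ∃ C : ℝ, 0 < C ∧ ∀ m : ℕ, 1 ≤ m →
    |M m| ≤ C * m / (Real.log ((m : ℝ) + 1)) ^ V := by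
  obtain ⟨N₀, h⟩ := Pool.Agent.H442R2.EHI.PntErrAux.mertMU V
  have hL0 : 0 ≤ Real.log ((N₀ : ℝ) + 1) := Real.log_nonneg (by linarith [Nat.cast_nonneg (α := ℝ) N₀])
  refine ⟨2 + (Real.log ((N₀ : ℝ) + 1)) ^ V, by positivity, ?_⟩
  intro m hm
  have hm1 : (1 : ℝ) ≤ m := by exact_mod_cast hm
  have hLpos : 0 < Real.log ((m : ℝ) + 1) := Real.log_pos (by linarith)
  have hLV : 0 < (Real.log ((m : ℝ) + 1)) ^ V := by positivity
  rw [le_div_iff₀ hLV]
  by_cases hmN : N₀ ≤ m + 1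
  · have h1 := h m hmN
    rw [le_div_iff₀ hLV] at h1
    have h2 : |M m| * (Real.log ((m : ℝ) + 1)) ^ V ≤ (m : ℝ) + 1 := h1
    have h3 : 0 ≤ (Real.log ((N₀ : ℝ) + 1)) ^ V * m := by positivity
    nlinarith
  · push Not at hmN
    have h1 := abs_M_le m
    have h2 : (Real.log ((m : ℝ) + 1)) ^ V ≤ (Real.log ((N₀ : ℝ) + 1)) ^ V := by
      apply pow_le_pow_left₀ hLpos.le
      apply Real.log_le_log (by linarith)
      have : (m : ℝ) + 1 ≤ N₀ := by exact_mod_cast hmN.le
      linarith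
    calc |M m| * (Real.log ((m : ℝ) + 1)) ^ V ≤ m * (Real.log ((N₀ : ℝ) + 1)) ^ V :=
          mul_le_mul h1 h2 hLV.le (by linarith)
      _ ≤ (2 + (Real.log ((N₀ : ℝ) + 1)) ^ V) * m := by nlinarith

theorem sum_inv_le (s : ℕ) : ∑ a ∈ Ioc 0 s, (1 : ℝ) / a ≤ 1 + Real.log s := by
  have h := harmonic_le_one_add_log s
  have e : ((harmonic s : ℚ) : ℝ) = ∑ a ∈ Ioc 0 s, (1 : ℝ) / a := by
    rw [harmonic_eq_sum_Icc]
    push_cast
    apply sum_congr
    · ext i
      simp [Nat.succ_le_iff]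
    · intro i _
      rw [one_div]
  rw [← e]
  exact h

end TaskMAux

open TaskMAux

theorem taskM : TaskM := by
  intro V
  obtain ⟨C, hC, hb⟩ := M_bound (V + 1)
  obtain ⟨C', hC', hb'⟩ := M_bound V
  have hl2 : 0 < Real.log 2 := Real.log_pos (by norm_num)
  refine ⟨2 * C * 2 ^ (V + 1) * (1 / Real.log 2 + 1) + C' * 3 ^ V, by positivity, ?_⟩
  intro y hy
  set N := ⌊y⌋₊ with hN
  have hN1 : 1 ≤ N := Nat.one_le_floor_iff y |>.mpr hy
  have hNy : (N : ℝ) ≤ y := Nat.floor_le (by linarith)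
  have hyN : y < N + 1 := Nat.lt_floor_add_one y
  set L := Real.log (y + 1) with hL
  have hL2 : Real.log 2 ≤ L := Real.log_le_log (by norm_num) (by linarith)
  have hLpos : 0 < L := lt_of_lt_of_le hl2 hL2
  set s := Nat.sqrt N with hs
  have hs1 : s * s ≤ N := Nat.sqrt_le N
  have hs2 : N < (s + 1) * (s + 1) := Nat.lt_succ_sqrt N
  have hspos : 1 ≤ s := by
    by_contra hcon
    have : s = 0 := by omega
    rw [this] at hs2
    omega
  have hyp := Pool.Agent.H381R2.HR.A1aux.hyperbola mu mu N s s hs1 hs2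
  have hIcc : Icc 1 N = Ioc 0 N := by
    ext i
    simp [Nat.succ_le_iff]
  have e1 : ∑ n ∈ Icc 1 N, mu2 n = ∑ n ∈ Ioc 0 N, (mu * mu) n := by
    rw [hIcc]; rfl
  have e2 : ∑ n ∈ Icc 1 N, mu2 n = 2 * ∑ a ∈ Ioc 0 s, mu a * M (N / a) - M s * M s := by
    rw [e1, hyp]
    unfold M
    ring
  -- the two bounds
  have b1 : |∑ a ∈ Ioc 0 s, mu a * M (N / a)| ≤
      C * 2 ^ (V + 1) * (1 / Real.log 2 + 1) * y / L ^ V := by
    have hterm : ∀ a ∈ Ioc 0 s, |mu a * M (N / a)| ≤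
        C * 2 ^ (V + 1) * y / L ^ (V + 1) * (1 / (a : ℝ)) := by
      intro a ha
      rw [mem_Ioc] at ha
      obtain ⟨ha0, has⟩ := ha
      have ha0' : (0 : ℝ) < a := by exact_mod_cast ha0
      set k := N / a with hk
      have hks : s ≤ k := by
        rw [hk, Nat.le_div_iff_mul_le ha0]
        calc s * a ≤ s * s := Nat.mul_le_mul_left _ has
          _ ≤ N := hs1
      have hk1 : 1 ≤ k := le_trans hspos hks
      have hkN : (k : ℝ) ≤ y / a := by
        rw [le_div_iff₀ ha0']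
        calc (k : ℝ) * a ≤ N := by exact_mod_cast Nat.div_mul_le_self N a
          _ ≤ y := hNy
      have hkk : N + 3 ≤ (k + 1) * (k + 1) := by
        have h1 : N < (k + 1) * a := by
          have h0 := Nat.lt_mul_div_succ N (show 0 < a from ha0)
          rw [mul_comm] at h0
          exact h0
        nlinarith
      have hlog : L ≤ 2 * Real.log ((k : ℝ) + 1) := by
        have h1 : (y + 1) ≤ ((k : ℝ) + 1) ^ 2 := by
          have : ((N : ℝ) + 3) ≤ ((k : ℝ) + 1) * ((k : ℝ) + 1) := by exact_mod_cast hkk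
          nlinarith
        calc L ≤ Real.log (((k : ℝ) + 1) ^ 2) := Real.log_le_log (by linarith) h1
          _ = 2 * Real.log ((k : ℝ) + 1) := by rw [Real.log_pow]; norm_num
      have hMk := hb k hk1
      have hlogk : 0 < Real.log ((k : ℝ) + 1) := by linarith
      have h5 : 1 / (Real.log ((k : ℝ) + 1)) ^ (V + 1) ≤ 2 ^ (V + 1) / L ^ (V + 1) := by
        rw [div_le_div_iff₀ (by positivity) (by positivity), one_mul, ← mul_pow]
        exact pow_le_pow_left₀ hLpos.le hlog _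
      rw [abs_mul]
      calc |mu a| * |M k| ≤ 1 * (C * k / (Real.log ((k : ℝ) + 1)) ^ (V + 1)) :=
            mul_le_mul (abs_mu_le a) hMk (abs_nonneg _) (by norm_num)
        _ = C * k * (1 / (Real.log ((k : ℝ) + 1)) ^ (V + 1)) := by ring
        _ ≤ C * (y / a) * (2 ^ (V + 1) / L ^ (V + 1)) := by
            apply mul_le_mul _ h5 (by positivity) (by positivity)
            exact mul_le_mul_of_nonneg_left hkN hC.le
        _ = C * 2 ^ (V + 1) * y / L ^ (V + 1) * (1 / (a : ℝ)) := by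
            field_simp
    calc |∑ a ∈ Ioc 0 s, mu a * M (N / a)| ≤ ∑ a ∈ Ioc 0 s, |mu a * M (N / a)| :=
          abs_sum_le_sum_abs _ _
      _ ≤ ∑ a ∈ Ioc 0 s, C * 2 ^ (V + 1) * y / L ^ (V + 1) * (1 / (a : ℝ)) := sum_le_sum hterm
      _ = C * 2 ^ (V + 1) * y / L ^ (V + 1) * ∑ a ∈ Ioc 0 s, (1 / (a : ℝ)) := by rw [mul_sum]
      _ ≤ C * 2 ^ (V + 1) * y / L ^ (V + 1) * ((1 / Real.log 2 + 1) * L) := by
          apply mul_le_mul_of_nonneg_left _ (by positivity)
          have h1 := sum_inv_le s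
          have h2 : Real.log s ≤ L := by
            apply Real.log_le_log (by exact_mod_cast hspos)
            have : (s : ℝ) ≤ N := by exact_mod_cast Nat.sqrt_le_self N
            linarith
          have h3 : 1 ≤ 1 / Real.log 2 * L := by
            rw [one_div, inv_mul_eq_div, le_div_iff₀ hl2]
            linarith
          nlinarith
      _ = C * 2 ^ (V + 1) * (1 / Real.log 2 + 1) * y / L ^ V := by
          rw [pow_succ L V]
          field_simp
  have b2 : |M s * M s| ≤ C' * 3 ^ V * y / L ^ V := by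
    have h1 := abs_M_le s
    have h2 := hb' s hspos
    have hs1' : (1 : ℝ) ≤ s := by exact_mod_cast hspos
    have hlog : L ≤ 3 * Real.log ((s : ℝ) + 1) := by
      have h1 : (y + 1) ≤ ((s : ℝ) + 1) ^ 3 := by
        have : (N : ℝ) + 1 ≤ ((s : ℝ) + 1) * ((s : ℝ) + 1) := by exact_mod_cast hs2
        nlinarith
      calc L ≤ Real.log (((s : ℝ) + 1) ^ 3) := Real.log_le_log (by linarith) h1
        _ = 3 * Real.log ((s : ℝ) + 1) := by rw [Real.log_pow]; norm_num
    have hlogs : 0 < Real.log ((s : ℝ) + 1) := by linarith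
    have h5 : 1 / (Real.log ((s : ℝ) + 1)) ^ V ≤ 3 ^ V / L ^ V := by
      rw [div_le_div_iff₀ (by positivity) (by positivity), one_mul, ← mul_pow]
      exact pow_le_pow_left₀ hLpos.le hlog _
    have hss : (s : ℝ) * s ≤ y := by
      have : (s : ℝ) * s ≤ N := by exact_mod_cast hs1
      linarith
    rw [abs_mul]
    calc |M s| * |M s| ≤ s * (C' * s / (Real.log ((s : ℝ) + 1)) ^ V) :=
          mul_le_mul h1 h2 (abs_nonneg _) (by positivity)
      _ = C' * (s * s) * (1 / (Real.log ((s : ℝ) + 1)) ^ V) := by ring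
      _ ≤ C' * y * (3 ^ V / L ^ V) := by
          apply mul_le_mul _ h5 (by positivity) (by positivity)
          exact mul_le_mul_of_nonneg_left hss hC'.le
      _ = C' * 3 ^ V * y / L ^ V := by ring
  rw [e2]
  calc |2 * ∑ a ∈ Ioc 0 s, mu a * M (N / a) - M s * M s|
      ≤ |2 * ∑ a ∈ Ioc 0 s, mu a * M (N / a)| + |M s * M s| := abs_sub _ _
    _ = 2 * |∑ a ∈ Ioc 0 s, mu a * M (N / a)| + |M s * M s| := by
        rw [abs_mul, abs_of_pos (by norm_num : (0 : ℝ) < 2)]
    _ ≤ 2 * (C * 2 ^ (V + 1) * (1 / Real.log 2 + 1) * y / L ^ V) + C' * 3 ^ V * y / L ^ V := by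
        linarith
    _ = (2 * C * 2 ^ (V + 1) * (1 / Real.log 2 + 1) + C' * 3 ^ V) * y / L ^ V := by ring

end Pool.Agent.H295R3.W
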